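import Pool.Agent.Helper63_CH5.Kern
import Pool.Agent.Helper63_CH5.Data10

/-!
Kernel evaluation of the certificate `Data10`.
-/

set_option autoImplicit false

namespace Pool.Agent.CH.D10

open K5

theorem p0_0 : chk1 1 3 6 tb rd mu 0 0 = true := by decide +kernel
theorem p0_1 : chk1 1 3 6 tb rd mu 0 1 = true := by decide +kernel
theorem p0_2 : chk1 1 3 6 tb rd mu 0 2 = true := by decide +kernel
theorem p1_0 : chk1 1 3 6 tb rd mu 1 0 = true := by decide +kernel
theorem p1_1 : chk1 1 3 6 tb rd mu 1 1 = true := by decide +kernel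
theorem p1_2 : chk1 1 3 6 tb rd mu 1 2 = true := by decide +kernel
theorem p2_0 : chk1 1 3 6 tb rd mu 2 0 = true := by decide +kernel
theorem p2_1 : chk1 1 3 6 tb rd mu 2 1 = true := by decide +kernel
theorem p2_2 : chk1 1 3 6 tb rd mu 2 2 = true := by decide +kernel
theorem p3_0 : chk1 1 3 6 tb rd mu 3 0 = true := by decide +kernel
theorem p3_1 : chk1 1 3 6 tb rd mu 3 1 = true := by decide +kernel
theorem p3_2 : chk1 1 3 6 tb rd mu 3 2 = true := by decide +kernel
theorem p4_0 : chk1 1 3 6 tb rd mu 4 0 = true := by decide +kernel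
theorem p4_1 : chk1 1 3 6 tb rd mu 4 1 = true := by decide +kernel
theorem p4_2 : chk1 1 3 6 tb rd mu 4 2 = true := by decide +kernel
theorem p5_0 : chk1 1 3 6 tb rd mu 5 0 = true := by decide +kernel
theorem p5_1 : chk1 1 3 6 tb rd mu 5 1 = true := by decide +kernel
theorem p5_2 : chk1 1 3 6 tb rd mu 5 2 = true := by decide +kernel
theorem p6_0 : chk1 1 3 6 tb rd mu 6 0 = true := by decide +kernel
theorem p6_1 : chk1 1 3 6 tb rd mu 6 1 = true := by decide +kernel
theorem p6_2 : chk1 1 3 6 tb rd mu 6 2 = true := by decide +kernel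
theorem p7_0 : chk1 1 3 6 tb rd mu 7 0 = true := by decide +kernel
theorem p7_1 : chk1 1 3 6 tb rd mu 7 1 = true := by decide +kernel
theorem p7_2 : chk1 1 3 6 tb rd mu 7 2 = true := by decide +kernel
theorem p8_0 : chk1 1 3 6 tb rd mu 8 0 = true := by decide +kernel
theorem p8_1 : chk1 1 3 6 tb rd mu 8 1 = true := by decide +kernel
theorem p8_2 : chk1 1 3 6 tb rd mu 8 2 = true := by decide +kernel
theorem p9_0 : chk1 1 3 6 tb rd mu 9 0 = true := by decide +kernel
theorem p9_1 : chk1 1 3 6 tb rd mu 9 1 = true := by decide +kernel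
theorem p9_2 : chk1 1 3 6 tb rd mu 9 2 = true := by decide +kernel
theorem p10_0 : chk1 1 3 6 tb rd mu 10 0 = true := by decide +kernel
theorem p10_1 : chk1 1 3 6 tb rd mu 10 1 = true := by decide +kernel
theorem p10_2 : chk1 1 3 6 tb rd mu 10 2 = true := by decide +kernel
theorem p11_0 : chk1 1 3 6 tb rd mu 11 0 = true := by decide +kernel
theorem p11_1 : chk1 1 3 6 tb rd mu 11 1 = true := by decide +kernel
theorem p11_2 : chk1 1 3 6 tb rd mu 11 2 = true := by decide +kernel
theorem p12_0 : chk1 1 3 6 tb rd mu 12 0 = true := by decide +kernel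
theorem p12_1 : chk1 1 3 6 tb rd mu 12 1 = true := by decide +kernel
theorem p12_2 : chk1 1 3 6 tb rd mu 12 2 = true := by decide +kernel
theorem p13_0 : chk1 1 3 6 tb rd mu 13 0 = true := by decide +kernel
theorem p13_1 : chk1 1 3 6 tb rd mu 13 1 = true := by decide +kernel
theorem p13_2 : chk1 1 3 6 tb rd mu 13 2 = true := by decide +kernel
theorem p14_0 : chk1 1 3 6 tb rd mu 14 0 = true := by decide +kernel
theorem p14_1 : chk1 1 3 6 tb rd mu 14 1 = true := by decide +kernel
theorem p14_2 : chk1 1 3 6 tb rd mu 14 2 = true := by decide +kernel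
theorem p15_0 : chk1 1 3 6 tb rd mu 15 0 = true := by decide +kernel
theorem p15_1 : chk1 1 3 6 tb rd mu 15 1 = true := by decide +kernel
theorem p15_2 : chk1 1 3 6 tb rd mu 15 2 = true := by decide +kernel
theorem p16_0 : chk1 1 3 6 tb rd mu 16 0 = true := by decide +kernel
theorem p16_1 : chk1 1 3 6 tb rd mu 16 1 = true := by decide +kernel
theorem p16_2 : chk1 1 3 6 tb rd mu 16 2 = true := by decide +kernel
theorem p17_0 : chk1 1 3 6 tb rd mu 17 0 = true := by decide +kernel
theorem p17_1 : chk1 1 3 6 tb rd mu 17 1 = true := by decide +kernel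
theorem p17_2 : chk1 1 3 6 tb rd mu 17 2 = true := by decide +kernel
theorem p18_0 : chk1 1 3 6 tb rd mu 18 0 = true := by decide +kernel
theorem p18_1 : chk1 1 3 6 tb rd mu 18 1 = true := by decide +kernel
theorem p18_2 : chk1 1 3 6 tb rd mu 18 2 = true := by decide +kernel
theorem p19_0 : chk1 1 3 6 tb rd mu 19 0 = true := by decide +kernel
theorem p19_1 : chk1 1 3 6 tb rd mu 19 1 = true := by decide +kernel
theorem p19_2 : chk1 1 3 6 tb rd mu 19 2 = true := by decide +kernel
theorem p20_0 : chk1 1 3 6 tb rd mu 20 0 = true := by decide +kernel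
theorem p20_1 : chk1 1 3 6 tb rd mu 20 1 = true := by decide +kernel
theorem p20_2 : chk1 1 3 6 tb rd mu 20 2 = true := by decide +kernel
theorem p21_0 : chk1 1 3 6 tb rd mu 21 0 = true := by decide +kernel
theorem p21_1 : chk1 1 3 6 tb rd mu 21 1 = true := by decide +kernel
theorem p21_2 : chk1 1 3 6 tb rd mu 21 2 = true := by decide +kernel
theorem p22_0 : chk1 1 3 6 tb rd mu 22 0 = true := by decide +kernel
theorem p22_1 : chk1 1 3 6 tb rd mu 22 1 = true := by decide +kernel
theorem p22_2 : chk1 1 3 6 tb rd mu 22 2 = true := by decide +kernel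
theorem p23_0 : chk1 1 3 6 tb rd mu 23 0 = true := by decide +kernel
theorem p23_1 : chk1 1 3 6 tb rd mu 23 1 = true := by decide +kernel
theorem p23_2 : chk1 1 3 6 tb rd mu 23 2 = true := by decide +kernel
theorem p24_0 : chk1 1 3 6 tb rd mu 24 0 = true := by decide +kernel
theorem p24_1 : chk1 1 3 6 tb rd mu 24 1 = true := by decide +kernel
theorem p24_2 : chk1 1 3 6 tb rd mu 24 2 = true := by decide +kernel
theorem p25_0 : chk1 1 3 6 tb rd mu 25 0 = true := by decide +kernel
theorem p25_1 : chk1 1 3 6 tb rd mu 25 1 = true := by decide +kernel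
theorem p25_2 : chk1 1 3 6 tb rd mu 25 2 = true := by decide +kernel
theorem p26_0 : chk1 1 3 6 tb rd mu 26 0 = true := by decide +kernel
theorem p26_1 : chk1 1 3 6 tb rd mu 26 1 = true := by decide +kernel
theorem p26_2 : chk1 1 3 6 tb rd mu 26 2 = true := by decide +kernel

theorem n000 : chk tb 0 0 0 = true := by decide +kernel
theorem n001 : chk tb 0 0 1 = true := by decide +kernel
theorem n002 : chk tb 0 0 2 = true := by decide +kernel
theorem n010 : chk tb 0 1 0 = true := by decide +kernel
theorem n011 : chk tb 0 1 1 = true := by decide +kernel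
theorem n012 : chk tb 0 1 2 = true := by decide +kernel
theorem n020 : chk tb 0 2 0 = true := by decide +kernel
theorem n021 : chk tb 0 2 1 = true := by decide +kernel
theorem n022 : chk tb 0 2 2 = true := by decide +kernel
theorem n100 : chk tb 1 0 0 = true := by decide +kernel
theorem n101 : chk tb 1 0 1 = true := by decide +kernel
theorem n102 : chk tb 1 0 2 = true := by decide +kernel
theorem n110 : chk tb 1 1 0 = true := by decide +kernel
theorem n111 : chk tb 1 1 1 = true := by decide +kernel
theorem n112 : chk tb 1 1 2 = true := by decide +kernel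
theorem n120 : chk tb 1 2 0 = true := by decide +kernel
theorem n121 : chk tb 1 2 1 = true := by decide +kernel
theorem n122 : chk tb 1 2 2 = true := by decide +kernel
theorem n200 : chk tb 2 0 0 = true := by decide +kernel
theorem n201 : chk tb 2 0 1 = true := by decide +kernel
theorem n202 : chk tb 2 0 2 = true := by decide +kernel
theorem n210 : chk tb 2 1 0 = true := by decide +kernel
theorem n211 : chk tb 2 1 1 = true := by decide +kernel
theorem n212 : chk tb 2 1 2 = true := by decide +kernel
theorem n220 : chk tb 2 2 0 = true := by decide +kernel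
theorem n221 : chk tb 2 2 1 = true := by decide +kernel
theorem n222 : chk tb 2 2 2 = true := by decide +kernel

theorem allp (t f0 : ℕ) (ht : t < 27) (hf : f0 < 3) : chk1 1 3 6 tb rd mu t f0 = true := by
  have h0 : f0 = 0 ∨ f0 = 1 ∨ f0 = 2 := by omega
  interval_cases t
  · rcases h0 with rfl | rfl | rfl
    · exact p0_0
    · exact p0_1
    · exact p0_2
  · rcases h0 with rfl | rfl | rfl
    · exact p1_0
    · exact p1_1
    · exact p1_2
  · rcases h0 with rfl | rfl | rfl
    · exact p2_0
    · exact p2_1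
    · exact p2_2
  · rcases h0 with rfl | rfl | rfl
    · exact p3_0
    · exact p3_1
    · exact p3_2
  · rcases h0 with rfl | rfl | rfl
    · exact p4_0
    · exact p4_1
    · exact p4_2
  · rcases h0 with rfl | rfl | rfl
    · exact p5_0
    · exact p5_1
    · exact p5_2
  · rcases h0 with rfl | rfl | rfl
    · exact p6_0
    · exact p6_1
    · exact p6_2
  · rcases h0 with rfl | rfl | rfl
    · exact p7_0
    · exact p7_1
    · exact p7_2
  · rcases h0 with rfl | rfl | rfl
    · exact p8_0
    · exact p8_1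
    · exact p8_2
  · rcases h0 with rfl | rfl | rfl
    · exact p9_0
    · exact p9_1
    · exact p9_2
  · rcases h0 with rfl | rfl | rfl
    · exact p10_0
    · exact p10_1
    · exact p10_2
  · rcases h0 with rfl | rfl | rfl
    · exact p11_0
    · exact p11_1
    · exact p11_2
  · rcases h0 with rfl | rfl | rfl
    · exact p12_0
    · exact p12_1
    · exact p12_2
  · rcases h0 with rfl | rfl | rfl
    · exact p13_0
    · exact p13_1
    · exact p13_2
  · rcases h0 with rfl | rfl | rfl
    · exact p14_0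
    · exact p14_1
    · exact p14_2
  · rcases h0 with rfl | rfl | rfl
    · exact p15_0
    · exact p15_1
    · exact p15_2
  · rcases h0 with rfl | rfl | rfl
    · exact p16_0
    · exact p16_1
    · exact p16_2
  · rcases h0 with rfl | rfl | rfl
    · exact p17_0
    · exact p17_1
    · exact p17_2
  · rcases h0 with rfl | rfl | rfl
    · exact p18_0
    · exact p18_1
    · exact p18_2
  · rcases h0 with rfl | rfl | rfl
    · exact p19_0
    · exact p19_1
    · exact p19_2
  · rcases h0 with rfl | rfl | rfl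
    · exact p20_0
    · exact p20_1
    · exact p20_2
  · rcases h0 with rfl | rfl | rfl
    · exact p21_0
    · exact p21_1
    · exact p21_2
  · rcases h0 with rfl | rfl | rfl
    · exact p22_0
    · exact p22_1
    · exact p22_2
  · rcases h0 with rfl | rfl | rfl
    · exact p23_0
    · exact p23_1
    · exact p23_2
  · rcases h0 with rfl | rfl | rfl
    · exact p24_0
    · exact p24_1
    · exact p24_2
  · rcases h0 with rfl | rfl | rfl
    · exact p25_0
    · exact p25_1
    · exact p25_2
  · rcases h0 with rfl | rfl | rfl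
    · exact p26_0
    · exact p26_1
    · exact p26_2

theorem alln (a01 a02 a12 : ℕ) (h1 : a01 < 3) (h2 : a02 < 3) (h3 : a12 < 3) :
    chk tb a01 a02 a12 = true := by
  have e1 : a01 = 0 ∨ a01 = 1 ∨ a01 = 2 := by omega
  have e2 : a02 = 0 ∨ a02 = 1 ∨ a02 = 2 := by omega
  have e3 : a12 = 0 ∨ a12 = 1 ∨ a12 = 2 := by omega
  rcases e1 with rfl | rfl | rfl
  all_goals rcases e2 with rfl | rfl | rfl
  all_goals rcases e3 with rfl | rfl | rfl
  · exact n000
  · exact n001
  · exact n002
  · exact n010
  · exact n011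
  · exact n012
  · exact n020
  · exact n021
  · exact n022
  · exact n100
  · exact n101
  · exact n102
  · exact n110
  · exact n111
  · exact n112
  · exact n120
  · exact n121
  · exact n122
  · exact n200
  · exact n201
  · exact n202
  · exact n210
  · exact n211
  · exact n212
  · exact n220
  · exact n221
  · exact n222

theorem mu_zero : ∀ t, ¬ (t % 3 ≠ 0 ∧ t / 3 % 3 ≠ 0 ∧ t / 9 ≠ 0) → ml mu t 0 = 0 ∧ ml mu t 1 = 0 ∧
    ml mu t 2 = 0 := by
  have h1 : ∀ t < 27, ¬ (t % 3 ≠ 0 ∧ t / 3 % 3 ≠ 0 ∧ t / 9 ≠ 0) → ml mu t 0 = 0 ∧ ml mu t 1 = 0 ∧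
    ml mu t 2 = 0 := by decide +kernel
  intro t ht
  by_cases h : t < 27
  · exact h1 t h ht
  · have : mu t = 0 := by
      unfold mu
      split <;> first | omega | rfl
    refine ⟨?_, ?_, ?_⟩ <;> · unfold ml; rw [this]; decide

theorem row_zero : ∀ t f, t < 27 → f < 27 → (¬ (f % 3 ≠ 0 ∧ f / 3 % 3 ≠ 0 ∧ f / 9 ≠ 0) →
    fl rd t f 8 = 0 ∧ fl rd t f 9 = 0 ∧ fl rd t f 10 = 0) := by
  have h1 : ∀ t < 27, ∀ f < 27, (¬ (f % 3 ≠ 0 ∧ f / 3 % 3 ≠ 0 ∧ f / 9 ≠ 0) →
    fl rd t f 8 = 0 ∧ fl rd t f 9 = 0 ∧ fl rd t f 10 = 0) := by decide +kernel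
  intro t f ht hf
  exact h1 t ht f hf

/-- The theorem of the certificate. -/
theorem tt10 {V : Type*} [Fintype V] [DecidableEq V] [Nonempty V] (E : V → V → Prop) [DecidableRel E]
    (hE : ∀ u v, E u v → ¬ E v u) (h3 : ∀ u v w, E u v → E v w → ¬ E w u)
    (hcl : ∀ T : Finset V, (∀ a ∈ T, ∀ b ∈ T, a ≠ b → E a b ∨ E b a) → T.card ≤ 6 + 3) :
    ∃ u : V, 3 * (Finset.univ.filter (fun v => E u v)).card < 1 * Fintype.card V :=
  clique_of_cert 1 3 6 (Lv rd) (mv rd) (tuv rd mu) (Wt tb)
    (F1_of_chk 1 3 6 tb rd mu allp mu_zero) (neg_of_chk tb alln) (F3_of rd mu row_zero)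
    E hE h3 hcl

end Pool.Agent.CH.D10
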