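import Pool.Agent.Helper93_CH.Fin5

/-!
Kernel evaluation of five-vertex flag certificates.

The table of values is packed with 24-bit digits (offset `2 ^ 23`), the certificate rows with 24-bit
fields: four vectors (offset 1024), four degree multipliers, three Turan weights.
-/

set_option autoImplicit false

namespace Pool.Agent.CH.K5

/-- the code of three digits -/
def cd (a b c : ℕ) : ℕ := Nat.add a (Nat.add (Nat.mul 3 b) (Nat.mul 9 c))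

/-- the inverse relation -/
def iv (a : ℕ) : ℕ := Nat.mod (Nat.sub 3 a) 3

/-- the indicator of `1` -/
def bt (x : ℕ) : ℕ := Nat.mul x (Nat.sub 2 x)

/-- table lookup -/
def dg (tb : ℕ → ℕ) (t f g r : ℕ) : ℕ :=
  Nat.mod (Nat.shiftRight (tb t) (Nat.mul 24 (Nat.add (Nat.mul 3 (Nat.add (Nat.mul 27 f) g)) r)))
    16777216

/-- field of a row -/
def fl (rd : ℕ → ℕ) (t f j : ℕ) : ℕ :=
  Nat.mod (Nat.shiftRight (rd t) (Nat.mul 24 (Nat.add (Nat.mul 11 f) j))) 16777216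

/-- multiplier -/
def ml (mu : ℕ → ℕ) (t j : ℕ) : ℕ :=
  Nat.mod (Nat.shiftRight (mu t) (Nat.mul 24 j)) 16777216

/-- the triangle code is a directed triangle -/
def bad (a b c : ℕ) : Bool := Nat.beq (cd a b c) 22 || Nat.beq (cd a b c) 17

/-- all digits -/
def all3 (p : ℕ → Bool) : Bool := p 0 && (p 1 && p 2)

theorem all3_spec {p : ℕ → Bool} (h : all3 p = true) {i : ℕ} (hi : i < 3) : p i = true := by
  unfold all3 at h
  rw [Bool.and_eq_true, Bool.and_eq_true] at h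
  obtain ⟨h0, h1, h2⟩ := h
  have : i = 0 ∨ i = 1 ∨ i = 2 := by omega
  rcases this with rfl | rfl | rfl
  · exact h0
  · exact h1
  · exact h2

theorem iv_eq {a : ℕ} (h : a < 3) : iv a = inv a := by
  have : a = 0 ∨ a = 1 ∨ a = 2 := by omega
  rcases this with rfl | rfl | rfl <;> rfl

theorem bt_eq {a : ℕ} (h : a < 3) : (bt a : ℤ) = bit1 a := by
  have : a = 0 ∨ a = 1 ∨ a = 2 := by omega
  rcases this with rfl | rfl | rfl <;> rfl

theorem cd_eq (a b c : ℕ) : cd a b c = a + 3 * b + 9 * c := by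
  show a + (3 * b + 9 * c) = _
  omega

theorem not_bad {a b c : ℕ} (ha : a < 3) (hb : b < 3) (hc : c < 3) (h : okT a b c) :
    bad a b c = false := by
  unfold bad
  rw [Bool.or_eq_false_iff, Bool.eq_false_iff, Bool.eq_false_iff]
  obtain ⟨h1, h2⟩ := h
  constructor
  · intro h3
    have h4 := Nat.eq_of_beq_eq_true h3
    rw [cd_eq] at h4
    apply h1
    omega
  · intro h3
    have h4 := Nat.eq_of_beq_eq_true h3
    rw [cd_eq] at h4
    apply h2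
    omega

/-- the ten lookups -/
def tot (tb : ℕ → ℕ) (a01 a02 a12 a03 a13 a23 a04 a14 a24 a34 : ℕ) : ℕ :=
  Nat.add (dg tb (cd a01 a02 a12) (cd a03 a13 a23) (cd a04 a14 a24) a34)
  (Nat.add (dg tb (cd a01 a03 a13) (cd a02 a12 (iv a23)) (cd a04 a14 a34) a24)
  (Nat.add (dg tb (cd a02 a03 a23) (cd a01 (iv a12) (iv a13)) (cd a04 a24 a34) a14)
  (Nat.add (dg tb (cd a12 a13 a23) (cd (iv a01) (iv a02) (iv a03)) (cd a14 a24 a34) a04)
  (Nat.add (dg tb (cd a01 a04 a14) (cd a02 a12 (iv a24)) (cd a03 a13 (iv a34)) a23)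
  (Nat.add (dg tb (cd a02 a04 a24) (cd a01 (iv a12) (iv a14)) (cd a03 a23 (iv a34)) a13)
  (Nat.add (dg tb (cd a12 a14 a24) (cd (iv a01) (iv a02) (iv a04)) (cd a13 a23 (iv a34)) a03)
  (Nat.add (dg tb (cd a03 a04 a34) (cd a01 (iv a13) (iv a14)) (cd a02 (iv a23) (iv a24)) a12)
  (Nat.add (dg tb (cd a13 a14 a34) (cd (iv a01) (iv a03) (iv a04)) (cd a12 (iv a23) (iv a24)) a02)
  (dg tb (cd a23 a24 a34) (cd (iv a02) (iv a03) (iv a04)) (cd (iv a12) (iv a13) (iv a14)) a01)))))))))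

/-- the check for a root triple -/
def chk (tb : ℕ → ℕ) (a01 a02 a12 : ℕ) : Bool :=
  bad a01 a12 a02 ||
  all3 (fun a03 => all3 (fun a13 => bad a01 a13 a03 ||
  all3 (fun a23 => bad a02 a23 a03 || (bad a12 a23 a13 ||
  all3 (fun a04 => all3 (fun a14 => bad a01 a14 a04 ||
  all3 (fun a24 => bad a02 a24 a04 || (bad a12 a24 a14 ||
  all3 (fun a34 => bad a03 a34 a04 || (bad a13 a34 a14 || (bad a23 a34 a24 ||
    Nat.ble (tot tb a01 a02 a12 a03 a13 a23 a04 a14 a24 a34) 83886079)))))))))))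

/-- the value function -/
def Wt (tb : ℕ → ℕ) (t f g r : ℕ) : ℤ := (dg tb t f g r : ℤ) - 8388608

theorem neg_of_chk (tb : ℕ → ℕ)
    (h : ∀ a01 a02 a12, a01 < 3 → a02 < 3 → a12 < 3 → chk tb a01 a02 a12 = true) :
    Neg (Wt tb) := by
  intro a01 a02 a12 a03 a13 a23 a04 a14 a24 a34 h01 h02 h12 h03 h13 h23 h04 h14 h24 h34
    o1 o2 o3 o4 o5 o6 o7 o8 o9 o10
  have h1 := h a01 a02 a12 h01 h02 h12
  unfold chk at h1
  rw [not_bad h01 h12 h02 o1, Bool.false_or] at h1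
  have h2 := all3_spec (all3_spec h1 h03) h13
  rw [not_bad h01 h13 h03 o2, Bool.false_or] at h2
  have h3 := all3_spec h2 h23
  rw [not_bad h02 h23 h03 o3, not_bad h12 h23 h13 o4, Bool.false_or, Bool.false_or] at h3
  have h4 := all3_spec (all3_spec h3 h04) h14
  rw [not_bad h01 h14 h04 o5, Bool.false_or] at h4
  have h5 := all3_spec h4 h24
  rw [not_bad h02 h24 h04 o6, not_bad h12 h24 h14 o7, Bool.false_or, Bool.false_or] at h5
  have h6 := all3_spec h5 h34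
  rw [not_bad h03 h34 h04 o8, not_bad h13 h34 h14 o9, not_bad h23 h34 h24 o10, Bool.false_or,
    Bool.false_or, Bool.false_or] at h6
  have h7 := Nat.le_of_ble_eq_true h6
  have h8 : ((tot tb a01 a02 a12 a03 a13 a23 a04 a14 a24 a34 : ℕ) : ℤ) ≤ 83886079 := by
    exact_mod_cast h7
  unfold tot at h8
  simp only [Nat.add_eq] at h8
  push_cast at h8
  rw [iv_eq h23, iv_eq h12, iv_eq h13, iv_eq h01, iv_eq h02, iv_eq h03, iv_eq h24, iv_eq h34,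
    iv_eq h14, iv_eq h04] at h8
  simp only [cd_eq] at h8
  unfold total Wt
  linarith

/-- the entry check -/
def c1 (C D K : ℕ) (tb rd mu : ℕ → ℕ) (t f0 f1 f2 g0 g1 g2 r : ℕ) : Bool :=
  Nat.ble
    (Nat.add
      (Nat.mul 2 (Nat.add (Nat.mul (fl rd t (cd f0 f1 f2) 0) (fl rd t (cd g0 g1 g2) 0))
        (Nat.add (Nat.mul (fl rd t (cd f0 f1 f2) 1) (fl rd t (cd g0 g1 g2) 1))
        (Nat.add (Nat.mul (fl rd t (cd f0 f1 f2) 2) (fl rd t (cd g0 g1 g2) 2))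
        (Nat.mul (fl rd t (cd f0 f1 f2) 3) (fl rd t (cd g0 g1 g2) 3))))))
      (Nat.add (Nat.mul D
        (Nat.add (Nat.mul (fl rd t (cd f0 f1 f2) 4) (bt g0))
        (Nat.add (Nat.mul (fl rd t (cd f0 f1 f2) 5) (bt g1))
        (Nat.add (Nat.mul (fl rd t (cd f0 f1 f2) 6) (bt g2))
        (Nat.add (Nat.mul (fl rd t (cd f0 f1 f2) 7) (bt r))
        (Nat.add (Nat.mul (fl rd t (cd g0 g1 g2) 4) (bt f0))
        (Nat.add (Nat.mul (fl rd t (cd g0 g1 g2) 5) (bt f1))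
        (Nat.add (Nat.mul (fl rd t (cd g0 g1 g2) 6) (bt f2))
        (Nat.mul (fl rd t (cd g0 g1 g2) 7) (bt (iv r)))))))))))
      (Nat.add (Nat.mul (Nat.mul (Nat.mul 2 K) (Nat.sub 1 r))
        (Nat.add (Nat.mul (ml mu t 0) (Nat.mul (fl rd t (cd f0 f1 f2) 8) (fl rd t (cd g0 g1 g2) 8)))
        (Nat.add (Nat.mul (ml mu t 1) (Nat.mul (fl rd t (cd f0 f1 f2) 9) (fl rd t (cd g0 g1 g2) 9)))
        (Nat.mul (ml mu t 2) (Nat.mul (fl rd t (cd f0 f1 f2) 10) (fl rd t (cd g0 g1 g2) 10))))))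
      16777216)))
    (Nat.add (dg tb t (cd f0 f1 f2) (cd g0 g1 g2) r)
    (Nat.add (Nat.mul 2048
      (Nat.add (fl rd t (cd f0 f1 f2) 0) (Nat.add (fl rd t (cd f0 f1 f2) 1)
      (Nat.add (fl rd t (cd f0 f1 f2) 2) (Nat.add (fl rd t (cd f0 f1 f2) 3)
      (Nat.add (fl rd t (cd g0 g1 g2) 0) (Nat.add (fl rd t (cd g0 g1 g2) 1)
      (Nat.add (fl rd t (cd g0 g1 g2) 2) (fl rd t (cd g0 g1 g2) 3)))))))))
    (Nat.add (Nat.mul C
      (Nat.add (fl rd t (cd f0 f1 f2) 4) (Nat.add (fl rd t (cd f0 f1 f2) 5)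
      (Nat.add (fl rd t (cd f0 f1 f2) 6) (Nat.add (fl rd t (cd f0 f1 f2) 7)
      (Nat.add (fl rd t (cd g0 g1 g2) 4) (Nat.add (fl rd t (cd g0 g1 g2) 5)
      (Nat.add (fl rd t (cd g0 g1 g2) 6) (fl rd t (cd g0 g1 g2) 7)))))))))
      (Nat.mul 2
        (Nat.add (Nat.mul (ml mu t 0) (Nat.mul (fl rd t (cd f0 f1 f2) 8) (fl rd t (cd g0 g1 g2) 8)))
        (Nat.add (Nat.mul (ml mu t 1) (Nat.mul (fl rd t (cd f0 f1 f2) 9) (fl rd t (cd g0 g1 g2) 9)))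
        (Nat.mul (ml mu t 2) (Nat.mul (fl rd t (cd f0 f1 f2) 10)
          (fl rd t (cd g0 g1 g2) 10)))))))))

/-- all entries with given `t`, `f0` -/
def chk1 (C D K : ℕ) (tb rd mu : ℕ → ℕ) (t f0 : ℕ) : Bool :=
  all3 (fun f1 => all3 (fun f2 => all3 (fun g0 => all3 (fun g1 => all3 (fun g2 => all3 (fun r =>
    c1 C D K tb rd mu t f0 f1 f2 g0 g1 g2 r))))))

/-- the square vectors -/
def Lv (rd : ℕ → ℕ) (t : ℕ) : List (ℕ → ℤ) :=
  [fun g => (fl rd t g 0 : ℤ) - 1024, fun g => (fl rd t g 1 : ℤ) - 1024,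
    fun g => (fl rd t g 2 : ℤ) - 1024, fun g => (fl rd t g 3 : ℤ) - 1024]

/-- the degree multipliers -/
def mv (rd : ℕ → ℕ) (t f i : ℕ) : ℕ := fl rd t f (4 + i)

/-- the Turan rows of a triangle type -/
def tv (rd mu : ℕ → ℕ) (t : ℕ) : List (ℕ × (ℕ → ℕ)) :=
  [(ml mu t 0, fun g => if g < 27 then fl rd t g 8 else 0),
    (ml mu t 1, fun g => if g < 27 then fl rd t g 9 else 0),
    (ml mu t 2, fun g => if g < 27 then fl rd t g 10 else 0)]

/-- the Turan rows -/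
def tuv (rd mu : ℕ → ℕ) (t : ℕ) : List (ℕ × (ℕ → ℕ)) :=
  if t % 3 ≠ 0 ∧ t / 3 % 3 ≠ 0 ∧ t / 9 ≠ 0 then tv rd mu t else []

theorem F1_of_chk (C D K : ℕ) (tb rd mu : ℕ → ℕ)
    (h : ∀ t f0, t < 27 → f0 < 3 → chk1 C D K tb rd mu t f0 = true)
    (hmu : ∀ t, ¬ (t % 3 ≠ 0 ∧ t / 3 % 3 ≠ 0 ∧ t / 9 ≠ 0) → ml mu t 0 = 0 ∧ ml mu t 1 = 0 ∧
      ml mu t 2 = 0) :
    ∀ t f g r, t < 27 → f < 27 → g < 27 → r < 3 →
      Wval C D K (Lv rd t) (mv rd t) (fun _ => []) (tuv rd mu t) f g r +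
        Wval C D K (Lv rd t) (mv rd t) (fun _ => []) (tuv rd mu t) g f (inv r) ≤ Wt tb t f g r := by
  intro t f g r ht hf hg hr
  obtain ⟨f0, f1, f2, k0, k1, k2, hfe⟩ : ∃ f0 f1 f2, f0 < 3 ∧ f1 < 3 ∧ f2 < 3 ∧ f = f0 + 3 * f1 + 9 * f2 :=
    ⟨f % 3, f / 3 % 3, f / 9, by omega, by omega, by omega, by omega⟩
  obtain ⟨g0, g1, g2, l0, l1, l2, hge⟩ : ∃ g0 g1 g2, g0 < 3 ∧ g1 < 3 ∧ g2 < 3 ∧ g = g0 + 3 * g1 + 9 * g2 :=
    ⟨g % 3, g / 3 % 3, g / 9, by omega, by omega, by omega, by omega⟩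
  have hc := all3_spec (all3_spec (all3_spec (all3_spec (all3_spec (all3_spec
    (h t f0 ht k0) k1) k2) l0) l1) l2) hr
  unfold c1 at hc
  have hc2 := Nat.le_of_ble_eq_true hc
  simp only [cd_eq, Nat.add_eq, Nat.mul_eq, ← hfe, ← hge] at hc2
  have hc3 : (_ : ℤ) ≤ _ := Int.ofNat_le.2 hc2
  clear hc hc2
  push_cast at hc3
  rw [bt_eq k0, bt_eq k1, bt_eq k2, bt_eq l0, bt_eq l1, bt_eq l2, bt_eq hr, iv_eq hr,
    bt_eq (show inv r < 3 by unfold inv; split_ifs <;> omega)] at hc3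
  have e0 : f % 3 = f0 := by omega
  have e1 : f / 3 % 3 = f1 := by omega
  have e2 : f / 9 = f2 := by omega
  have e3 : g % 3 = g0 := by omega
  have e4 : g / 3 % 3 = g1 := by omega
  have e5 : g / 9 = g2 := by omega
  have hr0 : ((Nat.sub 1 r : ℕ) : ℤ) = if r = 0 then 1 else 0 := by
    have : r = 0 ∨ r = 1 ∨ r = 2 := by omega
    rcases this with rfl | rfl | rfl <;> rfl
  have hr1 : (if inv r = 0 then (1 : ℤ) else 0) = if r = 0 then 1 else 0 := by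
    have : r = 0 ∨ r = 1 ∨ r = 2 := by omega
    rcases this with rfl | rfl | rfl <;> rfl
  rw [hr0] at hc3
  have htu : ((tuv rd mu t).map (fun q => (q.1 : ℤ) * tuV K q.2 f g r)).sum
      + ((tuv rd mu t).map (fun q => (q.1 : ℤ) * tuV K q.2 g f (inv r))).sum
      = (2 * K * (if r = 0 then 1 else 0) - 2) * ((ml mu t 0 : ℤ) * ((fl rd t f 8 : ℤ) * fl rd t g 8)
        + ((ml mu t 1 : ℤ) * ((fl rd t f 9 : ℤ) * fl rd t g 9)
        + (ml mu t 2 : ℤ) * ((fl rd t f 10 : ℤ) * fl rd t g 10))) := by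
    unfold tuv
    by_cases hT : t % 3 ≠ 0 ∧ t / 3 % 3 ≠ 0 ∧ t / 9 ≠ 0
    · rw [if_pos hT]
      simp only [tv, tuV, List.map_cons, List.map_nil, List.sum_cons, List.sum_nil, if_pos hf,
        if_pos hg, hr1]
      ring
    · rw [if_neg hT]
      obtain ⟨m0, m1, m2⟩ := hmu t hT
      rw [m0, m1, m2]
      simp
  have hsq : sqV (Lv rd t) f g = ((fl rd t f 0 : ℤ) - 1024) * ((fl rd t g 0 : ℤ) - 1024)
      + (((fl rd t f 1 : ℤ) - 1024) * ((fl rd t g 1 : ℤ) - 1024)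
      + (((fl rd t f 2 : ℤ) - 1024) * ((fl rd t g 2 : ℤ) - 1024)
      + ((fl rd t f 3 : ℤ) - 1024) * ((fl rd t g 3 : ℤ) - 1024))) := by
    simp only [sqV, Lv, List.map_cons, List.map_nil, List.sum_cons, List.sum_nil, add_zero]
  have hsq2 : sqV (Lv rd t) g f = ((fl rd t g 0 : ℤ) - 1024) * ((fl rd t f 0 : ℤ) - 1024)
      + (((fl rd t g 1 : ℤ) - 1024) * ((fl rd t f 1 : ℤ) - 1024)
      + (((fl rd t g 2 : ℤ) - 1024) * ((fl rd t f 2 : ℤ) - 1024)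
      + ((fl rd t g 3 : ℤ) - 1024) * ((fl rd t f 3 : ℤ) - 1024))) := by
    simp only [sqV, Lv, List.map_cons, List.map_nil, List.sum_cons, List.sum_nil, add_zero]
  unfold Wval Wt degV mv
  rw [hsq, hsq2, e0, e1, e2, e3, e4, e5]
  simp only [List.map_nil, List.sum_nil, add_zero]
  have htu' := htu
  linarith [htu', hc3]

theorem F3_of (rd mu : ℕ → ℕ)
    (h : ∀ t f, t < 27 → f < 27 → (¬ (f % 3 ≠ 0 ∧ f / 3 % 3 ≠ 0 ∧ f / 9 ≠ 0) →
      fl rd t f 8 = 0 ∧ fl rd t f 9 = 0 ∧ fl rd t f 10 = 0)) :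
    ∀ t, t < 27 → ∀ q ∈ tuv rd mu t, (t % 3 ≠ 0 ∧ t / 3 % 3 ≠ 0 ∧ t / 9 ≠ 0) ∧
      ∀ f, 0 < q.2 f → f % 3 ≠ 0 ∧ f / 3 % 3 ≠ 0 ∧ f / 9 ≠ 0 := by
  intro t ht q hq
  unfold tuv at hq
  by_cases hT : t % 3 ≠ 0 ∧ t / 3 % 3 ≠ 0 ∧ t / 9 ≠ 0
  · refine ⟨hT, ?_⟩
    rw [if_pos hT] at hq
    intro f hf
    by_contra hc
    have key : ∀ j, (j = 8 ∨ j = 9 ∨ j = 10) → ¬ 0 < (if f < 27 then fl rd t f j else 0) := by
      intro j hj h1
      by_cases hf2 : f < 27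
      · rw [if_pos hf2] at h1
        obtain ⟨z1, z2, z3⟩ := h t f ht hf2 hc
        rcases hj with rfl | rfl | rfl <;> omega
      · rw [if_neg hf2] at h1
        omega
    simp only [tv, List.mem_cons, List.not_mem_nil, or_false] at hq
    rcases hq with rfl | rfl | rfl
    · exact key 8 (Or.inl rfl) hf
    · exact key 9 (Or.inr (Or.inl rfl)) hf
    · exact key 10 (Or.inr (Or.inr rfl)) hf
  · rw [if_neg hT] at hq
    exact absurd hq List.not_mem_nil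

end Pool.Agent.CH.K5
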